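import Pool.Agent.Work.MP_a17a63_lc.SLang
import Pool.Agent.Work.MP_a81742_lc_or.TwoO2

/-!
# The language of the hidden bits: unique witnesses, self-1-helper
-/

namespace ORDist

/-- `UP^B`: NP relative to `B` with unique witnesses -/
def InUPO (B : List Bool → Bool) (L : Set (List Bool)) : Prop :=
  ∃ (V : List Bool × List Bool → Bool) (p : Polynomial ℕ),
    PolyTimeO B pairStr (fun z => [V z]) ∧
    (∀ x : List Bool, x ∈ L ↔ ∃ y : List Bool, y.length ≤ p.eval x.length ∧ V (x, y) = true) ∧
    ∀ x y y' : List Bool, y.length ≤ p.eval x.length → y'.length ≤ p.eval x.length →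
      V (x, y) = true → V (x, y') = true → y = y'

end ORDist

namespace ORTwo

open ORDist PTime

/-- is `s` of the form `(x, 1^i)` -/
def isForm (s : Str) : Bool :=
  decide (s = pairStr ((unpairS s).1, List.replicate (unpairS s).2.length true))

theorem isForm_iff {s : Str} : isForm s = true ↔
    s = pairStr ((unpairS s).1, List.replicate (unpairS s).2.length true) := by
  simp [isForm]

theorem isForm_pair (x : Str) (i : ℕ) : isForm (pairStr (x, List.replicate i true)) = true := by
  rw [isForm_iff, unpairS_pairStr]
  simp

theorem pt_isForm {α : Type} [Code α] {f : α → Str} (hf : PT f) : PT (fun a => isForm (f a)) := by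
  have hu : PT (fun a => unpairS (f a)) := PT.unpairS hf
  exact PT.eq hf (pt_pairStr_comp hu.fst' (pt_replB hu.snd'.length true))

theorem LB_not_form {F : Str → Bool} {s : Str} (h : isForm s = false) : LB F s = false := by
  rw [← Bool.not_eq_true, LB_iff]
  rintro ⟨x, i, w, rfl, _⟩
  rw [isForm_pair] at h
  exact absurd h (by simp)

theorem LB_form {A : Str → Bool} {s : Str} (h : isForm s = true) :
    LB (Tot A) s = (wit A (unpairS s).1 (unpairS s).1.length).getD (unpairS s).2.length false := by
  conv_lhs => rw [isForm_iff.1 h]
  rw [LB_Tot]

variable {Mach : ℕ → OProc} {A : Str → Bool}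

theorem orB_plain (u : Str) : orB Mach (Tot A) (false :: u) = Tot A u := rfl

/-- the verifier of the language (`b = true`) and of its complement (`b = false`) -/
noncomputable def VU (F : Str → Bool) (b : Bool) (z : Str × Str) : Bool :=
  bif isForm z.1 then decide (z.2.length = (unpairS z.1).1.length) &&
    (F ((unpairS z.1).1 ++ z.2) && decide (z.2.getD (unpairS z.1).2.length false = b))
  else (!b && z.2.isEmpty)

theorem VU_polyTimeO (b : Bool) : PolyTimeO (orB Mach (Tot A)) pairStr
    (fun z => [VU (Tot A) b z]) := by
  have hu : PT (fun s : Str => unpairS s) := PT.unpairS PT.id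
  have hx : PT (fun s : Str => unpairS (unpairS s).1) := PT.unpairS hu.fst'
  have hu' : PT (fun t : Str × Str => unpairS t.1) := hu.comp PT.fst
  have hx' : PT (fun t : Str × Str => unpairS (unpairS t.1).1) := hx.comp PT.fst
  refine polyTimeO_list (qs := fun s => [false :: ((unpairS (unpairS s).1).1 ++ (unpairS s).2)])
    (out := fun t => [bif isForm (unpairS t.1).1 then
      decide ((unpairS t.1).2.length = (unpairS (unpairS t.1).1).1.length) &&
      (t.2.headD false && decide ((unpairS t.1).2.getD (unpairS (unpairS t.1).1).2.length false
        = b)) else (!b && (unpairS t.1).2.isEmpty)])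
    (((PT.const false).cons (hx.fst'.append hu.snd')).cons (PT.const [])) ?_ ?_
  · exact (PT.cond (pt_isForm hu'.fst') ((PT.natEq hu'.snd'.length hx'.fst'.length).and
      ((PT.snd.headD (PT.const false)).and (PT.eq (hu'.snd'.getD hx'.snd'.length (PT.const false))
        (PT.const b)))) ((PT.const (!b)).and hu'.snd'.isEmpty)).cons (PT.const [])
  · rintro ⟨s, w⟩
    simp only [unpairS_pairStr, List.map_cons, List.map_nil, List.headD_cons, orB_plain, VU]

theorem VU_spec (b : Bool) (s w : Str) : VU (Tot A) b (s, w) = true ↔
    (isForm s = true ∧ w = wit A (unpairS s).1 (unpairS s).1.length ∧ LB (Tot A) s = b) ∨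
    (isForm s = false ∧ b = false ∧ w = []) := by
  unfold VU
  cases h : isForm s with
  | false =>
    simp only [cond_false, Bool.and_eq_true, Bool.not_eq_true', List.isEmpty_iff]
    simp
  | true =>
    simp only [cond_true, Bool.and_eq_true, decide_eq_true_eq]
    rw [LB_form h]
    constructor
    · rintro ⟨h1, h2, h3⟩
      have h4 := (Tot_append h1).1 h2
      exact Or.inl ⟨trivial, h4, by rw [← h4]; exact h3⟩
    · rintro (⟨_, h1, h2⟩ | ⟨h1, _⟩)
      · have hl : w.length = (unpairS s).1.length := by rw [h1, wit_length]
        exact ⟨hl, (Tot_append hl).2 h1, by rw [h1]; exact h2⟩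
      · exact absurd h1 (by simp)

theorem unpairS_length {s : Str} (h : isForm s = true) : (unpairS s).1.length ≤ s.length := by
  have := congrArg List.length (isForm_iff.1 h)
  rw [pairStr_length'] at this
  omega

theorem LB_inUPO : InUPO (orB Mach (Tot A)) {s | LB (Tot A) s = true} := by
  refine ⟨VU (Tot A) true, Polynomial.X, VU_polyTimeO true, fun s => ?_, fun s w w' _ _ h h' => ?_⟩
  · rw [Polynomial.eval_X, Set.mem_ofPred_eq]
    constructor
    · intro h
      have hf : isForm s = true := by
        by_contra hf
        rw [Bool.not_eq_true] at hf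
        rw [LB_not_form hf] at h
        exact absurd h (by simp)
      exact ⟨_, by rw [wit_length]; exact unpairS_length hf,
        (VU_spec true s _).2 (Or.inl ⟨hf, rfl, h⟩)⟩
    · rintro ⟨w, _, hw⟩
      rcases (VU_spec true s w).1 hw with ⟨_, _, h⟩ | ⟨_, h, _⟩
      · exact h
      · exact absurd h (by simp)
  · rcases (VU_spec true s w).1 h with ⟨_, h1, _⟩ | ⟨_, h1, _⟩
    · rcases (VU_spec true s w').1 h' with ⟨_, h2, _⟩ | ⟨_, h2, _⟩
      · rw [h1, h2]
      · exact absurd h2 (by simp)
    · exact absurd h1 (by simp)

theorem LB_compl_inUPO : InUPO (orB Mach (Tot A)) {s | LB (Tot A) s = true}ᶜ := by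
  refine ⟨VU (Tot A) false, Polynomial.X, VU_polyTimeO false, fun s => ?_,
    fun s w w' _ _ h h' => ?_⟩
  · rw [Polynomial.eval_X, Set.mem_compl_iff, Set.mem_ofPred_eq, Bool.not_eq_true]
    constructor
    · intro h
      by_cases hf : isForm s = true
      · exact ⟨_, by rw [wit_length]; exact unpairS_length hf,
          (VU_spec false s _).2 (Or.inl ⟨hf, rfl, h⟩)⟩
      · rw [Bool.not_eq_true] at hf
        exact ⟨[], Nat.zero_le _, (VU_spec false s _).2 (Or.inr ⟨hf, rfl, rfl⟩)⟩
    · rintro ⟨w, _, hw⟩
      rcases (VU_spec false s w).1 hw with ⟨_, _, h⟩ | ⟨h, _, _⟩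
      · exact h
      · exact LB_not_form h
  · rcases (VU_spec false s w).1 h with ⟨h0, h1, _⟩ | ⟨h0, _, h1⟩
    · rcases (VU_spec false s w').1 h' with ⟨_, h2, _⟩ | ⟨h3, _, _⟩
      · rw [h1, h2]
      · rw [h0] at h3
        exact absurd h3 (by simp)
    · rcases (VU_spec false s w').1 h' with ⟨h3, _, _⟩ | ⟨_, _, h2⟩
      · rw [h0] at h3
        exact absurd h3 (by simp)
      · rw [h1, h2]

/-! ### the self-1-helper -/

/-- enumeration of the strings of length `n` -/
def enumS (n k : ℕ) : Str := k.bits ++ List.replicate (n - k.bits.length) false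

theorem enumS_surj : ∀ w : Str, ∃ k : ℕ, k.bits.length ≤ w.length ∧ enumS w.length k = w
  | [] => ⟨0, by simp, by simp [enumS]⟩
  | b :: w => by
    obtain ⟨k, h1, h2⟩ := enumS_surj w
    by_cases h : k = 0 ∧ b = false
    · obtain ⟨rfl, rfl⟩ := h
      refine ⟨0, by simp, ?_⟩
      simp only [enumS, Nat.zero_bits, List.nil_append, List.length_nil, Nat.sub_zero] at h2 ⊢
      rw [List.length_cons, List.replicate_succ, h2]
    · have hb : (Nat.bit b k).bits = b :: k.bits := Nat.bits_append_bit k b fun hk => by
        by_contra hc
        exact h ⟨hk, by simpa using hc⟩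
      refine ⟨Nat.bit b k, ?_, ?_⟩
      · rw [hb, List.length_cons, List.length_cons]; omega
      · unfold enumS at h2 ⊢
        rw [hb, List.length_cons, List.length_cons, List.cons_append, Nat.add_sub_add_right, h2]

theorem enumS_length {n k : ℕ} (h : k.bits.length ≤ n) : (enumS n k).length = n := by
  unfold enumS
  rw [List.length_append, List.length_replicate]
  omega

theorem pt_enumS {α : Type} [Code α] {n k : α → ℕ} (hn : PT n) (hk : PT k) :
    PT (fun a => enumS (n a) (k a)) :=
  (PT.bits hk).append (pt_replB (hn.sub (PT.bits hk).length) false)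

/-- the candidate after the answers `a` (more than `n`), the last of which is `true` -/
def cand (n : ℕ) (a : Str) : Str :=
  bif decide (a.length = n + 1) then a.take n else enumS n (a.length - (n + 2))

/-- the robust procedure: ask the variable oracle for the hidden string of `x`, check it, and search
if it is wrong -/
def M1 : OProc := fun z =>
  bif !isForm z.1 then (false, [false])
  else bif decide (z.2.length < (unpairS z.1).1.length) then
    (true, true :: pairStr ((unpairS z.1).1, List.replicate z.2.length true))
  else bif decide (z.2.length = (unpairS z.1).1.length) then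
    (true, false :: false :: ((unpairS z.1).1 ++ z.2))
  else bif z.2.getLastD false then
    (false, [(cand (unpairS z.1).1.length z.2).getD (unpairS z.1).2.length false])
  else bif decide ((z.2.length - ((unpairS z.1).1.length + 1)).bits.length ≤
      (unpairS z.1).1.length) then
    (true, false :: false :: ((unpairS z.1).1 ++
      enumS (unpairS z.1).1.length (z.2.length - ((unpairS z.1).1.length + 1))))
  else (false, [false])

theorem pt_M1 : PT M1 := by
  have hu : PT (fun z : Str × Str => unpairS z.1) := (PT.unpairS PT.id).comp PT.fst
  have hx := hu.fst'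
  have hn := hx.length
  have hi := hu.snd'.length
  have ha : PT (fun z : Str × Str => z.2.length) := PT.snd.length
  have hn1 := hn.add (PT.const (α := Str × Str) 1)
  have hn2 := hn.add (PT.const (α := Str × Str) 2)
  have hk := ha.sub hn1
  have hcand : PT (fun z : Str × Str => cand (unpairS z.1).1.length z.2) :=
    PT.cond (PT.natEq ha hn1) (PT.snd.take hn) (pt_enumS hn (ha.sub hn2))
  exact PT.cond (pt_isForm PT.fst).not (PT.const _)
    (PT.cond (PT.lt ha hn) ((PT.const true).pair ((PT.const true).cons
      (pt_pairStr_comp hx (pt_replB ha true))))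
    (PT.cond (PT.natEq ha hn) ((PT.const true).pair ((PT.const false).cons ((PT.const false).cons
      (hx.append PT.snd))))
    (PT.cond (pt_last PT.snd) ((PT.const false).pair ((hcand.getD hi (PT.const false)).cons
      (PT.const [])))
    (PT.cond (PT.le (PT.bits hk).length hn) ((PT.const true).pair ((PT.const false).cons
      ((PT.const false).cons (hx.append (pt_enumS hn hk))))) (PT.const _)))))

section

variable {X : Str → Bool} {s x : Str} {i n : ℕ}

theorem M1_ask {a : Str} (hs : s = pairStr (x, List.replicate i true)) (hn : x.length = n)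
    (ha : a.length < n) : M1 (s, a) = (true, true :: pairStr (x, List.replicate a.length true)) := by
  subst hs hn
  unfold M1
  simp only [isForm_pair, unpairS_pairStr, Bool.not_true, cond_false]
  rw [decide_eq_true ha, cond_true]

theorem M1_check {a : Str} (hs : s = pairStr (x, List.replicate i true)) (hn : x.length = n)
    (ha : a.length = n) : M1 (s, a) = (true, false :: false :: (x ++ a)) := by
  subst hs hn
  unfold M1
  simp only [isForm_pair, unpairS_pairStr, Bool.not_true, cond_false]
  rw [decide_eq_false (by omega), cond_false, decide_eq_true ha, cond_true]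

theorem M1_found {a : Str} (hs : s = pairStr (x, List.replicate i true)) (hn : x.length = n)
    (ha : n < a.length) (hl : a.getLastD false = true) :
    M1 (s, a) = (false, [(cand n a).getD i false]) := by
  subst hs hn
  unfold M1
  simp only [isForm_pair, unpairS_pairStr, Bool.not_true, cond_false]
  rw [decide_eq_false (by omega), cond_false, decide_eq_false (by omega), cond_false, hl,
    cond_true, List.length_replicate]

theorem M1_search {a : Str} (hs : s = pairStr (x, List.replicate i true)) (hn : x.length = n)
    (ha : n < a.length) (hl : a.getLastD false = false)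
    (hk : (a.length - (n + 1)).bits.length ≤ n) :
    M1 (s, a) = (true, false :: false :: (x ++ enumS n (a.length - (n + 1)))) := by
  subst hs hn
  unfold M1
  simp only [isForm_pair, unpairS_pairStr, Bool.not_true, cond_false]
  rw [decide_eq_false (by omega), cond_false, decide_eq_false (by omega), cond_false, hl,
    cond_false, decide_eq_true hk, cond_true]

/-- the run of the robust procedure -/
theorem M1_run (hs : s = pairStr (x, List.replicate i true)) (hn : x.length = n) :
    (answers (join (orB Mach (Tot A)) X) M1 s n = wit A x n →
      HaltsO (join (orB Mach (Tot A)) X) M1 s (n + 1) ((wit A x n).getD i false)) ∧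
    ∃ k, HaltsO (join (orB Mach (Tot A)) X) M1 s k ((wit A x n).getD i false) := by
  set C := join (orB Mach (Tot A)) X with hC
  have hlen := length_answers C M1 s
  have hCp : ∀ u : Str, C (false :: false :: u) = Tot A u := fun u => rfl
  have hph1 : ∀ j < n, (M1 (s, answers C M1 s j)).1 = true := by
    intro j hj
    rw [M1_ask hs hn (by rw [hlen]; exact hj)]
  have hph2 : M1 (s, answers C M1 s n) = (true, false :: false :: (x ++ answers C M1 s n)) :=
    M1_check hs hn (hlen n)
  have hans : answers C M1 s (n + 1) = answers C M1 s n ++ [Tot A (x ++ answers C M1 s n)] := by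
    rw [answers, hph2, hCp]
  have hgood : answers C M1 s n = wit A x n → HaltsO C M1 s (n + 1) ((wit A x n).getD i false) := by
    intro hw
    have h1 : Tot A (x ++ answers C M1 s n) = true := by
      rw [Tot_append (by rw [hlen, hn]), hw, hn]
    refine ⟨fun j hj => ?_, ?_⟩
    · rcases Nat.lt_succ_iff_lt_or_eq.1 hj with h | rfl
      · exact hph1 j h
      · rw [hph2]
    · rw [M1_found hs hn (by rw [hlen]; omega) (by rw [hans, h1]; simp)]
      unfold cand
      rw [hlen, decide_eq_true rfl, cond_true, hans, List.take_left' (hlen n), hw]
  refine ⟨hgood, ?_⟩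
  by_cases hw : answers C M1 s n = wit A x n
  · exact ⟨_, hgood hw⟩
  · have hex : ∃ k : ℕ, k.bits.length ≤ n ∧ enumS n k = wit A x n := by
      obtain ⟨k, h1, h2⟩ := enumS_surj (wit A x n)
      rw [wit_length] at h1 h2
      exact ⟨k, h1, h2⟩
    classical
    set k0 := Nat.find hex with hk0
    obtain ⟨hk1, hk2⟩ := Nat.find_spec hex
    have hbits : ∀ j ≤ k0, j.bits.length ≤ n := by
      intro j hj
      refine le_trans ?_ hk1
      rw [Nat.size_eq_bits_len, Nat.size_eq_bits_len]
      exact Nat.size_le_size hj
    have hne : ∀ j < k0, enumS n j ≠ wit A x n := fun j hj h =>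
      Nat.find_min hex hj ⟨hbits j hj.le, h⟩
    have h1 : Tot A (x ++ answers C M1 s n) = false := by
      rw [← Bool.not_eq_true, Tot_append (by rw [hlen, hn]), hn]
      exact hw
    have hph3 : ∀ j ≤ k0, answers C M1 s (n + 1 + j) =
        answers C M1 s n ++ List.replicate (j + 1) false := by
      intro j
      induction j with
      | zero => intro _; rw [add_zero, hans, h1]; rfl
      | succ j ih =>
        intro hj
        have h2 := ih (by omega)
        have h3 : M1 (s, answers C M1 s (n + 1 + j)) =
            (true, false :: false :: (x ++ enumS n j)) := by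
          have h4 : (answers C M1 s (n + 1 + j)).length - (n + 1) = j := by rw [hlen]; omega
          have h5 := M1_search (a := answers C M1 s (n + 1 + j)) hs hn (by rw [hlen]; omega)
            (by rw [h2, List.replicate_succ', ← List.append_assoc]; simp)
            (by rw [h4]; exact hbits j (by omega))
          rw [h4] at h5
          exact h5
        rw [← add_assoc, answers, h3, hCp, h2]
        have h6 : Tot A (x ++ enumS n j) = false := by
          rw [← Bool.not_eq_true, Tot_append (by rw [enumS_length (hbits j (by omega)), hn]), hn]
          exact hne j (by omega)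
        rw [h6, List.append_assoc, ← List.replicate_succ']
    have hask3 : ∀ j ≤ k0, M1 (s, answers C M1 s (n + 1 + j)) =
        (true, false :: false :: (x ++ enumS n j)) := by
      intro j hj
      have h4 : (answers C M1 s (n + 1 + j)).length - (n + 1) = j := by rw [hlen]; omega
      have h5 := M1_search (a := answers C M1 s (n + 1 + j)) hs hn (by rw [hlen]; omega)
        (by rw [hph3 j hj, List.replicate_succ', ← List.append_assoc]; simp)
        (by rw [h4]; exact hbits j hj)
      rw [h4] at h5
      exact h5
    refine ⟨n + 1 + k0 + 1, fun j hj => ?_, ?_⟩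
    · by_cases h2 : j < n
      · exact hph1 j h2
      · by_cases h3 : j = n
        · rw [h3, hph2]
        · obtain ⟨l, rfl⟩ : ∃ l, j = n + 1 + l := ⟨j - (n + 1), by omega⟩
          rw [hask3 l (by omega)]
    · have h2 : answers C M1 s (n + 1 + k0 + 1) = answers C M1 s (n + 1 + k0) ++ [true] := by
        rw [answers, hask3 k0 le_rfl, hCp]
        congr 2
        rw [Tot_append (by rw [enumS_length hk1, hn]), hn]
        exact hk2
      rw [M1_found hs hn (by rw [hlen]; omega) (by rw [h2]; simp)]
      unfold cand
      rw [hlen, decide_eq_false (by omega), cond_false]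
      have h3 : n + 1 + k0 + 1 - (n + 2) = k0 := by omega
      rw [h3, hk2]

end

/-- **the language of the hidden bits is a self-1-helper** -/
theorem LB_selfOneHelper : SelfOneHelper (orB Mach (Tot A)) (LB (Tot A)) := by
  refine ⟨M1, Polynomial.X + 1, polyTime_of_pt pt_M1, fun X s => ?_, fun s hs => ?_⟩
  · by_cases hf : isForm s = true
    · obtain ⟨k, hk⟩ := (M1_run (Mach := Mach) (A := A) (X := X) (isForm_iff.1 hf) rfl).2
      exact ⟨k, by rw [LB_form hf]; exact hk⟩
    · rw [Bool.not_eq_true] at hf
      refine ⟨0, fun j hj => absurd hj (Nat.not_lt_zero _), ?_⟩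
      rw [LB_not_form hf]
      unfold M1
      simp only [hf, Bool.not_false, cond_true]
  · have hf : isForm s = true := by
      by_contra hf
      rw [Bool.not_eq_true] at hf
      rw [LB_not_form hf] at hs
      exact absurd hs (by simp)
    have hform := isForm_iff.1 hf
    set x := (unpairS s).1 with hx
    have h1 := (M1_run (Mach := Mach) (A := A) (X := LB (Tot A)) hform (rfl : x.length = x.length)).1
    refine ⟨x.length + 1, ?_, ?_⟩
    · simp only [Polynomial.eval_add, Polynomial.eval_X, Polynomial.eval_one]
      have h0 : x.length ≤ s.length := unpairS_length hf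
      omega
    · rw [← hs, LB_form hf]
      refine h1 ?_
      -- the answers of the language are the bits of the hidden string
      have h2 : ∀ j ≤ x.length, answers (join (orB Mach (Tot A)) (LB (Tot A))) M1 s j =
          (wit A x x.length).take j := by
        intro j
        induction j with
        | zero => intro _; simp [answers]
        | succ j ih =>
          intro hj
          have h3 := length_answers (join (orB Mach (Tot A)) (LB (Tot A))) M1 s j
          rw [answers, M1_ask hform rfl (by rw [h3]; omega), h3, ih (by omega)]
          show _ ++ [LB (Tot A) (pairStr (x, List.replicate j true))] = _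
          rw [LB_Tot, List.getD_eq_getElem _ _ (by rw [wit_length]; omega),
            List.take_append_getElem]
      rw [h2 _ le_rfl, List.take_of_length_le (by rw [wit_length])]

end ORTwo
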