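import Pool.Agent.Work.MP_a81742_lc_or.TwoCount

/-!
# Decision trees which output all hidden strings

The query `(x, w')` is answered by `w x = w'`. A decision tree of depth `d` can output the whole
family `w` only for at most `(1 + d) ^ K` families.
-/

namespace ORTwo

open Finset

namespace DT

variable {Q β : Type}

/-- run a sequence of trees -/
def seqG : {k : ℕ} → (Fin k → DT Q β) → DT Q (Fin k → β)
  | 0, _ => ret Fin.elim0
  | _ + 1, T => (T 0).bind fun b => (seqG fun i => T i.succ).bind fun g => ret (Fin.cons b g)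

theorem eval_seqG (B : Q → Bool) : ∀ {k : ℕ} (T : Fin k → DT Q β),
    (seqG T).eval B = fun i => (T i).eval B
  | 0, _ => funext fun i => i.elim0
  | k + 1, T => by
    rw [seqG, eval_bind, eval_bind, eval_seqG B]
    funext i
    refine Fin.cases ?_ (fun i => ?_) i
    · rfl
    · rfl

theorem depth_seqG {t : ℕ} : ∀ {k : ℕ} (T : Fin k → DT Q β), (∀ i, (T i).depth ≤ t) →
    (seqG T).depth ≤ k * t
  | 0, _, _ => Nat.zero_le _
  | k + 1, T, h => by
    have h1 := depth_seqG (fun i => T i.succ) fun i => h i.succ
    have h2 := h 0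
    rw [seqG]
    refine (depth_bind _ _ (m := k * t) fun b => ?_).trans ?_
    · exact (depth_bind _ _ (m := 0) fun g => le_rfl).trans h1
    · rw [Nat.succ_mul]
      omega

/-- iterate -/
def iterG (F : β → DT Q β) : ℕ → β → DT Q β
  | 0, b => ret b
  | n + 1, b => (F b).bind (iterG F n)

theorem eval_iterG (B : Q → Bool) (F : β → DT Q β) : ∀ (n : ℕ) (b : β),
    (iterG F n b).eval B = (fun b => (F b).eval B)^[n] b
  | 0, _ => rfl
  | n + 1, b => by
    rw [iterG, eval_bind, eval_iterG B F n, Function.iterate_succ_apply]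

theorem depth_iterG {F : β → DT Q β} {t : ℕ} (h : ∀ b, (F b).depth ≤ t) : ∀ (n : ℕ) (b : β),
    (iterG F n b).depth ≤ n * t
  | 0, _ => Nat.zero_le _
  | n + 1, b => by
    rw [iterG, Nat.succ_mul]
    refine (depth_bind _ _ fun b => depth_iterG h n b).trans ?_
    have := h b
    omega

end DT

section count

variable {X W : Type} [Fintype X] [DecidableEq X] [Fintype W] [DecidableEq W]

/-- the oracle of the hidden strings -/
def hid1 (w : X → W) (q : X × W) : Bool := decide (w q.1 = q.2)

theorem count1_aux (D : DT (X × W) (X → W)) : ∀ (d : ℕ), D.depth ≤ d →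
    ∀ (Y : Finset X) (R : X → W),
    (univ.filter fun w : X → W => (∀ x, x ∉ Y → w x = R x) ∧ D.eval (hid1 w) = w).card ≤
      (1 + d) ^ Y.card := by
  induction D with
  | ret g =>
    intro d _ Y R
    have h : (univ.filter fun w : X → W => (∀ x, x ∉ Y → w x = R x) ∧
        (DT.ret g : DT (X × W) (X → W)).eval (hid1 w) = w) ⊆ {g} := by
      intro w hw
      rw [mem_singleton]
      exact ((mem_filter.1 hw).2.2).symm
    refine (card_le_card h).trans ?_
    rw [card_singleton]
    exact Nat.one_le_pow _ _ (by omega)
  | ask q t0 t1 ih0 ih1 =>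
    intro d hd Y R
    obtain ⟨x', w'⟩ := q
    obtain _ | d := d
    · simp [DT.depth] at hd
    have hd0 : t0.depth ≤ d := by simp only [DT.depth] at hd; omega
    have hd1 : t1.depth ≤ d := by simp only [DT.depth] at hd; omega
    by_cases hx : x' ∈ Y
    · have hsub : (univ.filter fun w : X → W => (∀ x, x ∉ Y → w x = R x) ∧
            (DT.ask (x', w') t0 t1).eval (hid1 w) = w) ⊆
          (univ.filter fun w : X → W => (∀ x, x ∉ Y → w x = R x) ∧ t0.eval (hid1 w) = w) ∪
          (univ.filter fun w : X → W =>
            (∀ x, x ∉ Y.erase x' → w x = Function.update R x' w' x) ∧ t1.eval (hid1 w) = w) := by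
        intro w hw
        obtain ⟨h1, h2⟩ := (mem_filter.1 hw).2
        rw [mem_union, mem_filter, mem_filter]
        rcases hq : hid1 w (x', w') with _ | _
        · left
          refine ⟨mem_univ _, h1, ?_⟩
          rw [DT.eval, hq, cond_false] at h2
          exact h2
        · right
          refine ⟨mem_univ _, fun x hx2 => ?_, ?_⟩
          · by_cases hxx : x = x'
            · subst hxx
              rw [Function.update_self]
              simpa [hid1] using hq
            · rw [Function.update_of_ne hxx]
              exact h1 x fun h => hx2 (mem_erase.2 ⟨hxx, h⟩)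
          · rw [DT.eval, hq, cond_true] at h2
            exact h2
      refine (card_le_card hsub).trans ((card_union_le _ _).trans ?_)
      have h0 := ih0 d hd0 Y R
      have h1 := ih1 d hd1 (Y.erase x') (Function.update R x' w')
      rw [card_erase_of_mem hx] at h1
      refine (Nat.add_le_add h0 h1).trans ?_
      obtain ⟨k, hk⟩ : ∃ k, Y.card = k + 1 := ⟨Y.card - 1, by
        have : 0 < Y.card := card_pos.2 ⟨x', hx⟩
        omega⟩
      rw [hk, Nat.add_sub_cancel]
      have h2 : (1 + d) ^ k ≤ (1 + (d + 1)) ^ k := Nat.pow_le_pow_left (by omega) _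
      have h3 : (1 + d) ^ (k + 1) + (1 + d) ^ k = (1 + d) ^ k * (1 + (d + 1)) := by ring
      rw [h3, pow_succ]
      exact Nat.mul_le_mul_right _ h2
    · have hcase : ∀ (t : DT (X × W) (X → W)), (∀ w : X → W, (∀ x, x ∉ Y → w x = R x) →
            (DT.ask (x', w') t0 t1).eval (hid1 w) = t.eval (hid1 w)) →
          (univ.filter fun w : X → W => (∀ x, x ∉ Y → w x = R x) ∧
            t.eval (hid1 w) = w).card ≤ (1 + d) ^ Y.card →
          (univ.filter fun w : X → W => (∀ x, x ∉ Y → w x = R x) ∧
              (DT.ask (x', w') t0 t1).eval (hid1 w) = w).card ≤ (1 + (d + 1)) ^ Y.card := by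
        intro t ht hc
        refine (card_le_card ?_).trans (hc.trans (Nat.pow_le_pow_left (by omega) _))
        intro w hw
        obtain ⟨h1, h2⟩ := (mem_filter.1 hw).2
        exact mem_filter.2 ⟨mem_univ _, h1, by rw [← ht w h1]; exact h2⟩
      by_cases hR : R x' = w'
      · refine hcase t1 (fun w hw => ?_) (ih1 d hd1 Y R)
        rw [DT.eval]
        have : hid1 w (x', w') = true := by simp [hid1, hw x' hx, hR]
        rw [this, cond_true]
      · refine hcase t0 (fun w hw => ?_) (ih0 d hd0 Y R)
        rw [DT.eval]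
        have : hid1 w (x', w') = false := by simp [hid1, hw x' hx, hR]
        rw [this, cond_false]

/-- there are hidden strings which no tree of the family outputs -/
theorem exists_hidden1 {τ : Type} [Fintype τ] {K d : ℕ} [Nonempty W]
    (D : τ → DT (Fin K × W) (Fin K → W)) (hD : ∀ a, (D a).depth ≤ d)
    (h : Fintype.card τ * (1 + d) ^ K < Fintype.card W ^ K) :
    ∃ w : Fin K → W, ∀ a : τ, (D a).eval (hid1 w) ≠ w := by
  classical
  by_contra hcon
  push Not at hcon
  have hcov : (univ : Finset (Fin K → W)) ⊆
      univ.biUnion fun a : τ => univ.filter fun w : Fin K → W =>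
        (∀ x, x ∉ (univ : Finset (Fin K)) → w x = (fun _ => Classical.arbitrary W) x) ∧
          (D a).eval (hid1 w) = w := by
    intro w _
    obtain ⟨a, ha⟩ := hcon w
    exact mem_biUnion.2 ⟨a, mem_univ _, mem_filter.2 ⟨mem_univ _, fun x hx =>
      absurd (mem_univ x) hx, ha⟩⟩
  have h1 := (card_le_card hcov).trans card_biUnion_le
  have h2 : ∀ a : τ, (univ.filter fun w : Fin K → W =>
        (∀ x, x ∉ (univ : Finset (Fin K)) → w x = (fun _ => Classical.arbitrary W) x) ∧
          (D a).eval (hid1 w) = w).card ≤ (1 + d) ^ K := by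
    intro a
    have := count1_aux (D a) d (hD a) univ (fun _ => Classical.arbitrary W)
    rw [card_univ, Fintype.card_fin] at this
    convert this
  have h3 := h1.trans (sum_le_card_nsmul univ _ _ fun a _ => h2 a)
  rw [card_univ, card_univ, Fintype.card_fun, Fintype.card_fin, smul_eq_mul] at h3
  omega

end count

end ORTwo
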