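import Pool.Agent.Work.MP_a81742_lc_or.Defs

/-!
# Self-1-helpers and self-reducibility relative to an oracle

`OProc`, `answers`, `PolyTimeO`, `InPO`, `InNPO` are those of `OrcDefs`, `join` is that of `Defs`:
with the oracle `join B X` the queries `false :: q` go to the fixed oracle `B`, the queries
`true :: q` go to `X`. Languages are given by their indicators.
-/

namespace ORDist

/-- with the oracle `C` the procedure `M` stops on the input `x` after exactly `k` queries and its
output is `v` -/
def HaltsO (C : List Bool → Bool) (M : OProc) (x : List Bool) (k : ℕ) (v : Bool) : Prop :=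
  (∀ j < k, (M (x, answers C M x j)).1 = true) ∧ M (x, answers C M x k) = (false, [v])

/-- the `j`-th query of `M` on the input `x` with the oracle `C` is `q` -/
def Asks (C : List Bool → Bool) (M : OProc) (x : List Bool) (j : ℕ) (q : List Bool) : Prop :=
  (M (x, answers C M x j)).2 = q

/-- `L` is a self-1-helper relative to `B`: there is a robust procedure `M` (relative to `B`), which
stops with every oracle `X` and always accepts exactly `L`, and which with the oracle `L` accepts
every `x ∈ L` after polynomially many queries -/
def SelfOneHelper (B L : List Bool → Bool) : Prop :=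
  ∃ (M : OProc) (q : Polynomial ℕ), PolyTime pairStr actStr M ∧
    (∀ (X : List Bool → Bool) (x : List Bool), ∃ k, HaltsO (join B X) M x k (L x)) ∧
    ∀ x, L x = true → ∃ k ≤ q.eval x.length, HaltsO (join B L) M x k true

/-- `R y x` (`y ≺ x`) is a polynomially well-founded partial order relative to `B` -/
structure PolyWF (B : List Bool → Bool) (R : List Bool → List Bool → Prop) : Prop where
  irrefl : ∀ x, ¬ R x x
  trans : ∀ x y z, R x y → R y z → R x z
  dec : InPO B {s | ∃ y x, s = pairStr (y, x) ∧ R y x}
  bound : ∃ p : Polynomial ℕ, (∀ y x, R y x → y.length ≤ p.eval x.length) ∧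
    ∀ (k : ℕ) (c : ℕ → List Bool), (∀ i < k, R (c (i + 1)) (c i)) → k ≤ p.eval (c 0).length

/-- `L` is disjunctive self-reducible relative to `B` -/
def DisjSelfRed (B L : List Bool → Bool) : Prop :=
  ∃ R, PolyWF B R ∧ ∃ (M : OProc) (p : Polynomial ℕ), PolyTime pairStr actStr M ∧
    ∀ x, ∃ k ≤ p.eval x.length, HaltsO (join B L) M x k (L x) ∧
      (∀ j < k, ∀ y, Asks (join B L) M x j (true :: y) → R y x) ∧
      ((∀ j < k, ∀ y, ¬ Asks (join B L) M x j (true :: y)) ∨
        (L x = true ↔ ∃ j < k, ∃ y, Asks (join B L) M x j (true :: y) ∧ L y = true))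

/-- the weakest form of self-reducibility relative to `B`: an arbitrary well-founded relation, a
polynomial time procedure with advice of polynomial length, arbitrary use of the queries -/
def WeakSelfRed (B L : List Bool → Bool) : Prop :=
  ∃ R : List Bool → List Bool → Prop, WellFounded R ∧
    ∃ (M : OProc) (p : Polynomial ℕ) (adv : ℕ → List Bool) (r : Polynomial ℕ),
      PolyTime pairStr actStr M ∧ (∀ n, (adv n).length ≤ r.eval n) ∧
      ∀ x, ∃ k ≤ p.eval x.length, HaltsO (join B L) M (pairStr (x, adv x.length)) k (L x) ∧
        ∀ j < k, ∀ y, Asks (join B L) M (pairStr (x, adv x.length)) j (true :: y) → R y x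

end ORDist
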