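import Pool.Agent.Work.MP_a17a63_lc.SDefs
import Pool.Agent.Work.MP_a17a63_lc.SCount
import Pool.Agent.Work.MP_a81742_lc_or.TwoStage

/-!
# The language of the bits of the hidden strings
-/

namespace ORTwo

open ORDist PTime

open Classical in
/-- the hidden string of `x`: some `w` of length `m` with `x ++ w` in `A`, or the zero string -/
noncomputable def wit (A : Str → Bool) (x : Str) (m : ℕ) : Str :=
  if h : ∃ w : Str, w.length = m ∧ A (x ++ w) = true then h.choose else List.replicate m false

theorem wit_length (A : Str → Bool) (x : Str) (m : ℕ) : (wit A x m).length = m := by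
  unfold wit
  split_ifs with h
  · exact h.choose_spec.1
  · exact List.length_replicate

theorem wit_congr {A A' : Str → Bool} {x : Str} {m : ℕ}
    (h : ∀ w : Str, w.length = m → A (x ++ w) = A' (x ++ w)) : wit A x m = wit A' x m := by
  have e : (fun w : Str => w.length = m ∧ A (x ++ w) = true) =
      fun w : Str => w.length = m ∧ A' (x ++ w) = true := by
    funext w
    exact propext (and_congr_right fun hw => by rw [h w hw])
  have key : ∀ P Q : Str → Prop, P = Q → (∀ d : Decidable (∃ w, P w), ∀ d' : Decidable (∃ w, Q w),
      (@dite Str (∃ w, P w) d (fun h => h.choose) fun _ => List.replicate m false) =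
      (@dite Str (∃ w, Q w) d' (fun h => h.choose) fun _ => List.replicate m false)) := by
    rintro P Q rfl d d'
    rw [Subsingleton.elim d d']
  exact key _ _ e _ _

theorem wit_unique {A : Str → Bool} {x w : Str} {m : ℕ} (hw : w.length = m)
    (h : ∀ w' : Str, w'.length = m → (A (x ++ w') = true ↔ w' = w)) : wit A x m = w := by
  have he : ∃ w' : Str, w'.length = m ∧ A (x ++ w') = true := ⟨w, hw, (h w hw).2 rfl⟩
  unfold wit
  rw [dif_pos he]
  exact (h _ he.choose_spec.1).1 he.choose_spec.2

theorem wit_none {A : Str → Bool} {x : Str} {m : ℕ}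
    (h : ∀ w' : Str, w'.length = m → A (x ++ w') = false) :
    wit A x m = List.replicate m false := by
  unfold wit
  rw [dif_neg]
  rintro ⟨w, h1, h2⟩
  rw [h w h1] at h2
  exact absurd h2 (by simp)

/-- the graph of the hidden strings -/
noncomputable def Tot (A : Str → Bool) (u : Str) : Bool :=
  decide (u.drop (u.length / 2) = wit A (u.take (u.length / 2)) (u.length - u.length / 2))

theorem Tot_append {A : Str → Bool} {x w : Str} (h : w.length = x.length) :
    Tot A (x ++ w) = true ↔ w = wit A x x.length := by
  have h1 : (x ++ w).length / 2 = x.length := by rw [List.length_append]; omega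
  have h2 : (x ++ w).take x.length = x := List.take_left
  have h3 : (x ++ w).drop x.length = w := List.drop_left
  have h4 : (x ++ w).length - x.length = x.length := by rw [List.length_append]; omega
  unfold Tot
  rw [decide_eq_true_eq, h1, h2, h3, h4]

theorem Tot_local {A A' : Str → Bool} {u : Str}
    (h : ∀ u' : Str, u'.length = u.length → u'.take (u.length / 2) = u.take (u.length / 2) →
      A u' = A' u') : Tot A u = Tot A' u := by
  unfold Tot
  rw [wit_congr (A' := A')]
  intro w hw
  refine h _ ?_ ?_
  · rw [List.length_append, hw, List.length_take]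
    omega
  · rw [List.take_append_of_le_length (by rw [List.length_take]; omega), List.take_take,
      Nat.min_self]

open Classical in
/-- the bits of the hidden strings -/
noncomputable def LB (F : Str → Bool) (s : Str) : Bool :=
  decide (∃ (x : Str) (i : ℕ) (w : Str), s = pairStr (x, List.replicate i true) ∧
    w.length = x.length ∧ F (x ++ w) = true ∧ w.getD i false = true)

theorem LB_iff {F : Str → Bool} {s : Str} : LB F s = true ↔ ∃ (x : Str) (i : ℕ) (w : Str),
    s = pairStr (x, List.replicate i true) ∧ w.length = x.length ∧ F (x ++ w) = true ∧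
      w.getD i false = true := by
  simp [LB]

theorem LB_pair {F : Str → Bool} {x : Str} {i : ℕ} :
    LB F (pairStr (x, List.replicate i true)) = true ↔ ∃ w : Str, w.length = x.length ∧
      F (x ++ w) = true ∧ w.getD i false = true := by
  rw [LB_iff]
  constructor
  · rintro ⟨x', i', w, h1, h2, h3, h4⟩
    obtain ⟨h5, h6⟩ := pairStr_inj' h1
    have h7 := congrArg List.length h6
    simp only [List.length_replicate] at h7
    subst h5 h7
    exact ⟨w, h2, h3, h4⟩
  · rintro ⟨w, h2, h3, h4⟩
    exact ⟨x, i, w, rfl, h2, h3, h4⟩

theorem LB_Tot {A : Str → Bool} {x : Str} {i : ℕ} :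
    LB (Tot A) (pairStr (x, List.replicate i true)) = (wit A x x.length).getD i false := by
  rw [Bool.eq_iff_iff, LB_pair]
  constructor
  · rintro ⟨w, h1, h2, h3⟩
    rw [← (Tot_append h1).1 h2]
    exact h3
  · intro h
    exact ⟨_, wit_length _ _ _, (Tot_append (wit_length _ _ _)).2 rfl, h⟩

end ORTwo
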