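import Pool.Agent.Work.MP_a17a63_lc.SStage
import Pool.Agent.Work.MP_a17a63_lc.SHelper
import Pool.Agent.Work.MP_a81742_lc_or.TwoPP

/-!
# Assembly
-/

namespace ORTwo

open ORDist PTime

/-- disjunctive self-reducible languages are self-reducible in the weakest sense -/
theorem weak_of_disj {B L : Str → Bool} (h : DisjSelfRed B L) : WeakSelfRed B L := by
  obtain ⟨R, hR, M, p, hM, hrun⟩ := h
  refine ⟨R, ?_, fun z => M ((unpairS z.1).1, z.2), p, fun _ => [], 0,
    polyTime_of_pt ((pt_of_polyTime hM).comp ((PT.unpairS PT.fst).fst'.pair PT.snd)),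
    fun n => Nat.zero_le _, fun x => ?_⟩
  · obtain ⟨q, _, hq⟩ := hR.bound
    rw [wellFounded_iff_isEmpty_descending_chain]
    refine ⟨fun c => ?_⟩
    have h1 := hq (q.eval (c.1 0).length + 1) c.1 fun i _ => c.2 i
    omega
  · have e : ∀ j, answers (join B L) (fun z => M ((unpairS z.1).1, z.2)) (pairStr (x, [])) j =
        answers (join B L) M x j := by
      intro j
      induction j with
      | zero => rfl
      | succ j ih => rw [answers, answers, ih]; simp only [unpairS_pairStr]
    obtain ⟨k, hk, ⟨h1, h2⟩, h3, _⟩ := hrun x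
    refine ⟨k, hk, ⟨fun j hj => ?_, ?_⟩, fun j hj y hy => ?_⟩
    · rw [e]
      simp only [unpairS_pairStr]
      exact h1 j hj
    · rw [e]
      simp only [unpairS_pairStr]
      exact h2
    · refine h3 j hj y ?_
      unfold Asks at hy ⊢
      rw [e] at hy
      simpa only [unpairS_pairStr] using hy

/-- languages in `P^B / poly` are self-reducible in the weakest sense -/
theorem weak_of_pPoly {B L : Str → Bool} (h : InPPolyO B {x | L x = true}) : WeakSelfRed B L := by
  obtain ⟨V, adv, r, ⟨M, hM, p, hp⟩, hadv, hV⟩ := h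
  have hMpt := pt_of_polyTime hM
  -- the same procedure, with the queries sent to the first part of the join
  refine ⟨fun _ _ => False, ⟨fun a => ⟨a, fun b hb => absurd hb id⟩⟩,
    fun z => ((M z).1, bif (M z).1 then false :: (M z).2 else (M z).2),
    p.comp (2 * Polynomial.X + 1 + r), adv, r,
    polyTime_of_pt (hMpt.fst'.pair (PT.cond hMpt.fst' ((PT.const false).cons hMpt.snd')
      hMpt.snd')), hadv, fun x => ?_⟩
  obtain ⟨k, hk, h1, h2⟩ := hp (x, adv x.length)
  set inp := pairStr (x, adv x.length) with hinp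
  set M' : OProc := fun z => ((M z).1, bif (M z).1 then false :: (M z).2 else (M z).2) with hM'
  have e : ∀ j ≤ k, answers (join B L) M' inp j = answers B M inp j := by
    intro j
    induction j with
    | zero => intro _; rfl
    | succ j ih =>
      intro hj
      rw [answers, answers, ih (by omega)]
      congr 2
      show join B L (bif (M (inp, answers B M inp j)).1 then false :: _ else _) = _
      rw [h1 j (by omega), cond_true]
      rfl
  have hV' : V (x, adv x.length) = L x := by
    rw [Bool.eq_iff_iff, ← hV x]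
    rfl
  refine ⟨k, ?_, ⟨fun j hj => ?_, ?_⟩, fun j hj y hy => ?_⟩
  · refine hk.trans ?_
    simp only [Polynomial.eval_comp, Polynomial.eval_add, Polynomial.eval_mul,
      Polynomial.eval_X, Polynomial.eval_ofNat, Polynomial.eval_one]
    refine eval_mono p ?_
    rw [pairStr_length']
    have := hadv x.length
    omega
  · rw [e j hj.le]
    exact h1 j hj
  · rw [e k le_rfl]
    show ((M (inp, answers B M inp k)).1, bif (M (inp, answers B M inp k)).1 then _ else _) = _
    rw [h2, ← hV']
    rfl
  · exfalso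
    unfold Asks at hy
    rw [e j hj.le] at hy
    have h3 : (M' (inp, answers B M inp j)).2 = false :: (M (inp, answers B M inp j)).2 := by
      show (bif (M (inp, answers B M inp j)).1 then false :: _ else _) = _
      rw [h1 j hj, cond_true]
    rw [h3] at hy
    exact absurd hy (by simp)

/-- the oracle: `O_2^{p,B} = P^B`, and a self-1-helper relative to `B`, in `UP^B` and `coUP^B`,
which is not self-reducible relative to `B` in the weakest sense -/
theorem exists_main : ∃ B : Str → Bool,
    (∀ (m : Polynomial ℕ) (L : Set Str), InO2O B (fun n => m.eval n) L → InPO B L) ∧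
    ∃ L : Str → Bool, InUPO B {x | L x = true} ∧ InUPO B {x | L x = true}ᶜ ∧
      SelfOneHelper B L ∧ ¬ WeakSelfRed B L := by
  obtain ⟨Mach, hMach⟩ := exists_enum
  have hc1 : Countable {M : OProc // PT M} :=
    (countable_PT (α := Str × Str) (β := Bool × Str)).to_subtype
  have hc2 := countable_poly
  obtain ⟨A, hA⟩ := ORD.exists_oracle (ι := {M : OProc // PT M} × Polynomial ℕ × Polynomial ℕ)
    (fun e A => ¬ WSR (orB Mach (Tot A)) (LB (Tot A)) e.1.1 e.2.1 e.2.2)
    (fun e A0 b hb => stageS Mach e.1.2 e.2.1 e.2.2 A0 b hb)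
  refine ⟨orB Mach (Tot A), fun m L hL => o2_sub_p hMach _ hL, LB (Tot A), LB_inUPO,
    LB_compl_inUPO, LB_selfOneHelper, ?_⟩
  rintro ⟨R, hR, M, p, adv, r, hM, hadv, h⟩
  exact hA (⟨M, pt_of_polyTime hM⟩, p, r) ⟨R, hR, adv, hadv, h⟩

/-- the second half of the barrier for `O_2^p ⊆ PP` -/
theorem exists_collapse_UP : ∃ B : Str → Bool,
    (∀ (m : Polynomial ℕ) (L : Set Str), InO2O B (fun n => m.eval n) L →
      InPO B L ∧ ∃ K : Str → Bool, InPPO B K ∧ L = {x | K x = true}) ∧
    ∃ L : Set Str, InUPO B L ∧ InUPO B Lᶜ ∧ ¬ InPPolyO B L := by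
  obtain ⟨B, h1, L, h2, h3, _, h5⟩ := exists_main
  exact ⟨B, fun m L hL => ⟨h1 m L hL, inPPO_of_inPO (h1 m L hL)⟩, {x | L x = true}, h2, h3,
    fun h => h5 (weak_of_pPoly h)⟩

end ORTwo
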