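import Pool.Agent.Work.MP_a17a63_lc.SLang

/-!
# Evaluation of a self-reduction by rounds, as a decision tree
-/

namespace ORTwo

open ORDist PTime

/-- reading of a classified query: constant, hidden position of the oracle, position of the
language -/
def rd2 {Q P : Type} (o : Q → Bool) (v : P → Bool) : Bool ⊕ (Q ⊕ P) → Bool
  | .inl b => b
  | .inr (.inl q) => o q
  | .inr (.inr p) => v p

/-- the clocked run as a decision tree, where the values of the language are read off from the
table `μ`; the result is `none` if a value is missing -/
def rt {Q P : Type} (cl : Str → Bool ⊕ (Q ⊕ P)) (μ : P → Option Bool) (M : OProc) (inp : Str) :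
    ℕ → Str → DT Q (Option Bool)
  | 0, a => .ret (some (!(M (inp, a)).1 && (M (inp, a)).2.headD false))
  | f + 1, a => bif (M (inp, a)).1 then
      (match cl (M (inp, a)).2 with
        | .inl b => rt cl μ M inp f (a ++ [b])
        | .inr (.inl q) => .ask q (rt cl μ M inp f (a ++ [false])) (rt cl μ M inp f (a ++ [true]))
        | .inr (.inr p) => match μ p with
          | none => .ret none
          | some b => rt cl μ M inp f (a ++ [b]))
    else .ret (some ((M (inp, a)).2.headD false))

theorem rt_depth {Q P : Type} (cl : Str → Bool ⊕ (Q ⊕ P)) (μ : P → Option Bool) (M : OProc)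
    (inp : Str) : ∀ (f : ℕ) (a : Str), (rt cl μ M inp f a).depth ≤ f := by
  intro f
  induction f with
  | zero => intro a; exact le_rfl
  | succ f ih =>
    intro a
    rw [rt]
    cases (M (inp, a)).1 with
    | false => rw [cond_false]; exact Nat.zero_le _
    | true =>
      rw [cond_true]
      cases cl (M (inp, a)).2 with
      | inl b => exact (ih _).trans (Nat.le_succ _)
      | inr qp =>
        cases qp with
        | inl q =>
          have h0 := ih (a ++ [false])
          have h1 := ih (a ++ [true])
          show max _ _ + 1 ≤ f + 1
          omega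
        | inr p =>
          show (match μ p with
            | none => DT.ret none
            | some b => rt cl μ M inp f (a ++ [b])).depth ≤ f + 1
          cases μ p with
          | none => exact Nat.zero_le _
          | some b => exact (ih _).trans (Nat.le_succ _)

/-- the run with a sound table gives the right value, or it meets a missing value -/
theorem rt_eval {Q P : Type} {cl : Str → Bool ⊕ (Q ⊕ P)} {μ : P → Option Bool} {M : OProc}
    {inp : Str} {C : Str → Bool} {o : Q → Bool} {v : P → Bool} {k N : ℕ} {b0 : Bool}
    (hcl : ∀ a s : Str, a.length < N → M (inp, a) = (true, s) → C s = rd2 o v (cl s))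
    (hμ : ∀ p b, μ p = some b → v p = b) (hM : HaltsO C M inp k b0) (hkN : k ≤ N) :
    ∀ (f j : ℕ), j ≤ k → k ≤ j + f →
      (rt cl μ M inp f (answers C M inp j)).eval o = some b0 ∨
      ((rt cl μ M inp f (answers C M inp j)).eval o = none ∧ ∃ i < k, ∃ p,
        cl (M (inp, answers C M inp i)).2 = .inr (.inr p) ∧ μ p = none) := by
  intro f
  induction f with
  | zero =>
    intro j hj hk
    have e : j = k := by omega
    subst e
    left
    rw [rt, hM.2]
    rfl
  | succ f ih =>
    intro j hj hk
    by_cases hjk : j = k
    · subst hjk
      left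
      rw [rt, hM.2]
      rfl
    · have h1 := hM.1 j (by omega)
      have h2 := hcl (answers C M inp j) (M (inp, answers C M inp j)).2
        (by rw [length_answers]; omega) (Prod.ext h1 rfl)
      have h3 : answers C M inp (j + 1) = answers C M inp j ++ [C (M (inp, answers C M inp j)).2] :=
        rfl
      have ih' := ih (j + 1) (by omega) (by omega)
      rw [h3, h2] at ih'
      rw [rt, h1, cond_true]
      cases hc : cl (M (inp, answers C M inp j)).2 with
      | inl b =>
        rw [hc] at ih'
        exact ih'
      | inr qp =>
        cases qp with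
        | inl q =>
          rw [hc] at ih'
          have ih2 : (rt cl μ M inp f (answers C M inp j ++ [o q])).eval o = some b0 ∨
              ((rt cl μ M inp f (answers C M inp j ++ [o q])).eval o = none ∧ ∃ i < k, ∃ p,
                cl (M (inp, answers C M inp i)).2 = .inr (.inr p) ∧ μ p = none) := ih'
          show (bif o q then _ else _) = _ ∨ (bif o q then _ else _) = _ ∧ _
          cases ho : o q with
          | false => rw [ho] at ih2; exact ih2
          | true => rw [ho] at ih2; exact ih2
        | inr p =>
          rw [hc] at ih'
          have ih2 : (rt cl μ M inp f (answers C M inp j ++ [v p])).eval o = some b0 ∨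
              ((rt cl μ M inp f (answers C M inp j ++ [v p])).eval o = none ∧ ∃ i < k, ∃ p,
                cl (M (inp, answers C M inp i)).2 = .inr (.inr p) ∧ μ p = none) := ih'
          show (match μ p with
            | none => DT.ret none
            | some b => rt cl μ M inp f (answers C M inp j ++ [b])).eval o = _ ∨
            (match μ p with
            | none => DT.ret none
            | some b => rt cl μ M inp f (answers C M inp j ++ [b])).eval o = _ ∧ _
          cases hp : μ p with
          | none => exact Or.inr ⟨rfl, j, by omega, p, hc, hp⟩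
          | some b =>
            rw [hμ p b hp] at ih2
            exact ih2

/-! ### rounds -/

section rounds

variable {Q : Type} {K n : ℕ}

/-- one round -/
def stepT (cl : Str → Bool ⊕ (Q ⊕ (Fin K × Fin n))) (M : OProc) (inp : Fin K → Fin n → Str)
    (f : ℕ) (μ : Fin K → Fin n → Option Bool) : DT Q (Fin K → Fin n → Option Bool) :=
  DT.seqG fun i => DT.seqG fun j => match μ i j with
    | some b => .ret (some b)
    | none => rt cl (fun p => μ p.1 p.2) M (inp i j) f []

theorem stepT_depth (cl : Str → Bool ⊕ (Q ⊕ (Fin K × Fin n))) (M : OProc)
    (inp : Fin K → Fin n → Str) (f : ℕ) (μ : Fin K → Fin n → Option Bool) :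
    (stepT cl M inp f μ).depth ≤ K * (n * f) := by
  refine DT.depth_seqG _ fun i => DT.depth_seqG _ fun j => ?_
  cases μ i j with
  | some b => exact Nat.zero_le _
  | none => exact rt_depth _ _ _ _ _ _

theorem stepT_eval (cl : Str → Bool ⊕ (Q ⊕ (Fin K × Fin n))) (M : OProc)
    (inp : Fin K → Fin n → Str) (f : ℕ) (μ : Fin K → Fin n → Option Bool) (o : Q → Bool)
    (i : Fin K) (j : Fin n) :
    (stepT cl M inp f μ).eval o i j = match μ i j with
      | some b => some b
      | none => (rt cl (fun p => μ p.1 p.2) M (inp i j) f []).eval o := by
  unfold stepT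
  simp only [DT.eval_seqG]
  cases μ i j with
  | some b => rfl
  | none => rfl

/-- the rounds find all values -/
theorem rounds {cl : Str → Bool ⊕ (Q ⊕ (Fin K × Fin n))} {M : OProc} {inp : Fin K → Fin n → Str}
    {C : Str → Bool} {o : Q → Bool} {v : Fin K × Fin n → Bool} {N f : ℕ}
    (hcl : ∀ (i : Fin K) (j : Fin n) (a s : Str), a.length < N → M (inp i j, a) = (true, s) →
      C s = rd2 o v (cl s))
    {kk : Fin K → Fin n → ℕ} (hkN : ∀ i j, kk i j ≤ N) (hkf : ∀ i j, kk i j ≤ f)
    (hM : ∀ i j, HaltsO C M (inp i j) (kk i j) (v (i, j)))
    {R : Fin K × Fin n → Fin K × Fin n → Prop} (hR : WellFounded R)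
    (hRq : ∀ i j, ∀ l < kk i j, ∀ p, cl (M (inp i j, answers C M (inp i j) l)).2 = .inr (.inr p) →
      R p (i, j)) :
    (DT.iterG (stepT cl M inp f) (K * n) (fun _ _ => none)).eval o = fun i j => some (v (i, j)) := by
  classical
  rw [DT.eval_iterG]
  set F : (Fin K → Fin n → Option Bool) → (Fin K → Fin n → Option Bool) :=
    fun μ => (stepT cl M inp f μ).eval o with hF
  set ν : ℕ → Fin K → Fin n → Option Bool := fun t => F^[t] (fun _ _ => none) with hν
  have hνs : ∀ t, ν (t + 1) = F (ν t) := fun t => by
    simp only [hν]
    rw [Function.iterate_succ_apply']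
  -- the tables are sound
  have hstep : ∀ t, (∀ i j b, ν t i j = some b → v (i, j) = b) → ∀ i j,
      (ν (t + 1) i j = some (v (i, j))) ∨ (ν (t + 1) i j = none ∧ ν t i j = none ∧
        ∃ l < kk i j, ∃ p : Fin K × Fin n,
          cl (M (inp i j, answers C M (inp i j) l)).2 = .inr (.inr p) ∧ ν t p.1 p.2 = none) := by
    intro t hs i j
    rw [hνs]
    simp only [hF]
    rw [stepT_eval]
    cases hij : ν t i j with
    | some b =>
      left
      show some b = some (v (i, j))
      rw [hs i j b hij]
    | none =>
      have := rt_eval (k := kk i j) (N := N) (f := f) (j := 0) (cl := cl) (M := M) (inp := inp i j)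
        (C := C) (o := o) (v := v) (μ := fun p => ν t p.1 p.2) (b0 := v (i, j))
        (hcl i j) (fun p b hp => hs p.1 p.2 b hp) (hM i j) (hkN i j) (Nat.zero_le _)
        (by have := hkf i j; omega)
      rcases this with h | ⟨h1, h2⟩
      · exact Or.inl h
      · exact Or.inr ⟨h1, rfl, h2⟩
  have hsound : ∀ t, ∀ i j b, ν t i j = some b → v (i, j) = b := by
    intro t
    induction t with
    | zero => intro i j b h; simp [hν] at h
    | succ t ih =>
      intro i j b h
      rcases hstep t ih i j with h1 | ⟨h1, _, _⟩
      · rw [h1] at h
        exact Option.some.inj h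
      · rw [h1] at h
        exact absurd h (by simp)
  -- the number of missing values
  have hcard : ∀ t, (Finset.univ.filter fun p : Fin K × Fin n => ν t p.1 p.2 = none).card ≤
      K * n - t := by
    intro t
    induction t with
    | zero =>
      refine (Finset.card_filter_le _ _).trans ?_
      rw [Finset.card_univ, Fintype.card_prod, Fintype.card_fin, Fintype.card_fin]
      omega
    | succ t ih =>
      have hsub : (Finset.univ.filter fun p : Fin K × Fin n => ν (t + 1) p.1 p.2 = none) ⊆
          (Finset.univ.filter fun p : Fin K × Fin n => ν t p.1 p.2 = none) := by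
        intro p hp
        rw [Finset.mem_filter] at hp ⊢
        refine ⟨hp.1, ?_⟩
        rcases hstep t (hsound t) p.1 p.2 with h1 | ⟨_, h2, _⟩
        · rw [h1] at hp
          exact absurd hp.2 (by simp)
        · exact h2
      by_cases he : ∃ p : Fin K × Fin n, ν t p.1 p.2 = none
      · obtain ⟨p, hp, hmin⟩ := hR.has_min {p : Fin K × Fin n | ν t p.1 p.2 = none} he
        have hpn : ν (t + 1) p.1 p.2 ≠ none := by
          rcases hstep t (hsound t) p.1 p.2 with h1 | ⟨_, _, l, hl, q, hq, hqn⟩
          · rw [h1]; simp
          · exact absurd (hRq p.1 p.2 l hl q hq) (hmin q hqn)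
        have hlt : (Finset.univ.filter fun p : Fin K × Fin n => ν (t + 1) p.1 p.2 = none).card <
            (Finset.univ.filter fun p : Fin K × Fin n => ν t p.1 p.2 = none).card := by
          refine Finset.card_lt_card ⟨hsub, fun hcon => ?_⟩
          have h1 : p ∈ Finset.univ.filter fun p : Fin K × Fin n => ν t p.1 p.2 = none :=
            Finset.mem_filter.2 ⟨Finset.mem_univ _, hp⟩
          exact hpn (Finset.mem_filter.1 (hcon h1)).2
        omega
      · have h0 : (Finset.univ.filter fun p : Fin K × Fin n => ν t p.1 p.2 = none).card = 0 := by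
          rw [Finset.card_eq_zero, Finset.filter_eq_empty_iff]
          intro p _ hp
          exact he ⟨p, hp⟩
        have := Finset.card_le_card hsub
        omega
  have hfin := hcard (K * n)
  rw [Nat.sub_self, Nat.le_zero, Finset.card_eq_zero, Finset.filter_eq_empty_iff] at hfin
  funext i j
  have h1 := hfin (Finset.mem_univ (i, j))
  show ν (K * n) i j = some (v (i, j))
  cases h2 : ν (K * n) i j with
  | none => exact absurd h2 h1
  | some b => rw [hsound _ i j b h2]

end rounds

end ORTwo
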