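import Pool.Agent.Work.MP_a17a63_lc.SRun

/-!
# One stage: a given procedure is not a self-reduction of the language of the hidden bits
-/

namespace ORTwo

open ORDist PTime

/-- the test strings -/
def posS (n K : ℕ) (p : Fin K × Fin n) : Str :=
  pairStr (bstr n p.1, List.replicate p.2 true)

theorem posS_inj {n K : ℕ} (hK : K ≤ 2 ^ n) {p q : Fin K × Fin n} (h : posS n K p = posS n K q) :
    p = q := by
  obtain ⟨h1, h2⟩ := pairStr_inj' h
  have h3 := congrArg val h1
  rw [val_bstr (lt_of_lt_of_le p.1.2 hK), val_bstr (lt_of_lt_of_le q.1.2 hK)] at h3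
  have h4 := congrArg List.length h2
  rw [List.length_replicate, List.length_replicate] at h4
  exact Prod.ext (Fin.ext h3) (Fin.ext h4)

theorem posS_length {n K : ℕ} (p : Fin K × Fin n) : (posS n K p).length = 2 * n + p.2 + 1 := by
  unfold posS
  rw [pairStr_length', bstr_length, List.length_replicate]

/-- classification of the plain queries -/
def clP2 (F0 : Str → Bool) (n K : ℕ) (u : Str) : Bool ⊕ (Fin K × Fin (2 ^ n)) :=
  if h : u.length = 2 * n ∧ val (u.take n) < K then
    .inr (⟨val (u.take n), h.2⟩, ⟨val (u.drop n) % 2 ^ n, Nat.mod_lt _ (by positivity)⟩)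
  else .inl (F0 u)

/-- classification of the queries to the oracle, the tally part being given by the table `tab` -/
def clB2 (F0 : Str → Bool) (n K N : ℕ) (tab : Fin N → Bool) : Str → Bool ⊕ (Fin K × Fin (2 ^ n))
  | [] => .inl false
  | false :: u => clP2 F0 n K u
  | true :: r => .inl (decide (r = List.replicate r.length true) &&
      if h : r.length < N then tab ⟨r.length, h⟩ else false)

/-- the new plain part -/
def newB (F0 : Str → Bool) (n K : ℕ) (w : Fin K → Fin (2 ^ n)) (u : Str) : Bool :=
  rd (hid1 w) (clP2 F0 n K u)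

open Classical in
/-- classification of the queries to the language -/
noncomputable def clL (F0 : Str → Bool) (n K : ℕ) (s : Str) : Bool ⊕ (Fin K × Fin n) :=
  if h : ∃ p, s = posS n K p then .inr h.choose else .inl (LB F0 s)

/-- a query to the oracle -/
def liftL {Q P : Type} : Bool ⊕ Q → Bool ⊕ (Q ⊕ P)
  | .inl b => .inl b
  | .inr q => .inr (.inl q)

/-- a query to the language -/
def liftR {Q P : Type} : Bool ⊕ P → Bool ⊕ (Q ⊕ P)
  | .inl b => .inl b
  | .inr p => .inr (.inr p)

theorem rd2_liftL {Q P : Type} (o : Q → Bool) (v : P → Bool) (c : Bool ⊕ Q) :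
    rd2 o v (liftL c) = rd o c := by
  cases c <;> rfl

theorem rd2_liftR {Q P : Type} (o : Q → Bool) (v : P → Bool) (c : Bool ⊕ P) :
    rd2 o v (liftR c) = rd v c := by
  cases c <;> rfl

/-- classification of all queries -/
noncomputable def cls (F0 : Str → Bool) (n K N : ℕ) (tab : Fin N → Bool) :
    Str → Bool ⊕ ((Fin K × Fin (2 ^ n)) ⊕ (Fin K × Fin n))
  | [] => .inl false
  | false :: s => liftL (clB2 F0 n K N tab s)
  | true :: s => liftR (clL F0 n K s)

/-- the hidden bits -/
def hbit {n K : ℕ} (w : Fin K → Fin (2 ^ n)) (p : Fin K × Fin n) : Bool :=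
  (bstr n (w p.1)).getD p.2 false

section

variable {A A0 : Str → Bool} {n K b1 : ℕ} {w : Fin K → Fin (2 ^ n)}

theorem newB_of_ne {F0 : Str → Bool} {u : Str} (h : ¬ (u.length = 2 * n ∧ val (u.take n) < K)) :
    newB F0 n K w u = F0 u := by
  unfold newB clP2
  rw [dif_neg h]
  rfl

theorem newB_one {F0 : Str → Bool} (hK : K ≤ 2 ^ n) (i : Fin K) {u : Str}
    (hu : u.length = n) : newB F0 n K w (bstr n i ++ u) = true ↔ u = bstr n (w i) := by
  have h1 : (bstr n i ++ u).length = 2 * n := by rw [List.length_append, bstr_length]; omega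
  have h2 : (bstr n i ++ u).take n = bstr n i := List.take_left' (bstr_length _ _)
  have h3 : (bstr n i ++ u).drop n = u := List.drop_left' (bstr_length _ _)
  have h4 : val (bstr n i) = i := val_bstr (lt_of_lt_of_le i.2 hK)
  have hv : val u < 2 ^ n := hu ▸ val_lt u
  have h5 : (bstr n i ++ u).length = 2 * n ∧ val ((bstr n i ++ u).take n) < K :=
    ⟨h1, by rw [h2, h4]; exact i.2⟩
  unfold newB clP2
  rw [dif_pos h5]
  simp only [h2, h3, h4, rd, hid1, Fin.eta, decide_eq_true_eq]
  constructor
  · intro h6
    have h7 : (w i : ℕ) = val u := by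
      rw [h6]
      exact Nat.mod_eq_of_lt hv
    have h8 := bstr_val u
    rw [hu] at h8
    rw [h7]
    exact h8.symm
  · rintro rfl
    ext
    show (w i : ℕ) = val (bstr n (w i)) % 2 ^ n
    rw [val_bstr (w i).2, Nat.mod_eq_of_lt (w i).2]

/-- the hidden strings -/
theorem wit_new (hK : K ≤ 2 ^ n)
    (hA : ∀ u : Str, u.length < b1 → A u = newB A0 n K w u) (hb : 2 * n < b1)
    (i : Fin K) : wit A (bstr n i) n = bstr n (w i) := by
  refine wit_unique (bstr_length _ _) fun w' hw' => ?_
  rw [hA _ (by rw [List.length_append, bstr_length]; omega), newB_one hK i hw']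

/-- the graph of the hidden strings -/
theorem Tot_new (hK : K ≤ 2 ^ n)
    (hA : ∀ u : Str, u.length < b1 → A u = newB A0 n K w u) (hb : 2 * n < b1) {u : Str}
    (hu : u.length < b1) : Tot A u = newB (Tot A0) n K w u := by
  by_cases hn : u.length = 2 * n ∧ val (u.take n) < K
  · obtain ⟨h1, h2⟩ := hn
    have h3 : u = bstr n (val (u.take n)) ++ u.drop n := by
      have h4 := bstr_val (u.take n)
      rw [List.length_take, Nat.min_eq_left (by omega)] at h4
      rw [h4, List.take_append_drop]
    have h5 : (u.drop n).length = n := by rw [List.length_drop]; omega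
    have h6 : Tot A (bstr n (⟨val (u.take n), h2⟩ : Fin K) ++ u.drop n) =
        newB (Tot A0) n K w (bstr n (⟨val (u.take n), h2⟩ : Fin K) ++ u.drop n) := by
      rw [Bool.eq_iff_iff, Tot_append (by rw [h5, bstr_length]), newB_one hK _ h5, bstr_length,
        wit_new hK hA hb]
    rw [h3]
    exact h6
  · rw [newB_of_ne hn]
    refine Tot_local fun u' hu' hu2 => ?_
    rw [hA u' (by omega), newB_of_ne]
    rintro ⟨h1, h2⟩
    apply hn
    have h3 : u.length / 2 = n := by omega
    rw [h3] at hu2
    exact ⟨by omega, by rw [← hu2]; exact h2⟩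

/-- the values of the language at the test strings -/
theorem LB_pos (hK : K ≤ 2 ^ n)
    (hA : ∀ u : Str, u.length < b1 → A u = newB A0 n K w u) (hb : 2 * n < b1)
    (p : Fin K × Fin n) : LB (Tot A) (posS n K p) = hbit w p := by
  unfold posS hbit
  rw [LB_Tot, bstr_length, wit_new hK hA hb]

/-- the values of the language at the other strings -/
theorem LB_other (hK : K ≤ 2 ^ n)
    (hA : ∀ u : Str, u.length < b1 → A u = newB A0 n K w u) (hb : 2 * n < b1)
    {s : Str} (hs : s.length < b1) (hsp : ∀ p, s ≠ posS n K p) : LB (Tot A) s = LB (Tot A0) s := by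
  rw [Bool.eq_iff_iff, LB_iff, LB_iff]
  refine exists_congr fun x => exists_congr fun i => exists_congr fun u =>
    and_congr_right fun hsx => and_congr_right fun hu => ?_
  have hlen : 2 * x.length < b1 := by
    rw [hsx, pairStr_length'] at hs
    omega
  have hul : (x ++ u).length = 2 * x.length := by rw [List.length_append]; omega
  rw [Tot_new hK hA hb (by omega)]
  by_cases hx : x.length = n ∧ val x < K
  · obtain ⟨hx1, hx2⟩ := hx
    by_cases hi : i < n
    · exfalso
      refine hsp (⟨val x, hx2⟩, ⟨i, hi⟩) ?_
      rw [hsx]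
      show _ = pairStr (bstr n (val x), List.replicate i true)
      rw [← hx1, bstr_val]
    · have h1 : u.getD i false = false := List.getD_eq_default _ _ (by omega)
      rw [h1]
      simp
  · rw [newB_of_ne]
    rintro ⟨h1, h2⟩
    have h3 : x.length = n := by omega
    rw [List.take_left' h3] at h2
    exact hx ⟨h3, h2⟩

/-- the classification is right -/
theorem cls_right {Mach : ℕ → OProc} {N : ℕ} (hK : K ≤ 2 ^ n)
    (hA : ∀ u : Str, u.length < b1 → A u = newB A0 n K w u) (hb : 2 * n < b1)
    (hN : N ≤ b1) (s : Str) (hs : s.length < N) :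
    join (orB Mach (Tot A)) (LB (Tot A)) s =
      rd2 (hid1 w) (hbit w) (cls (Tot A0) n K N (fun k => tT Mach (Tot A) k) s) := by
  match s with
  | [] => rfl
  | false :: s =>
    rw [List.length_cons] at hs
    show orB Mach (Tot A) s = rd2 (hid1 w) (hbit w)
      (liftL (clB2 (Tot A0) n K N (fun k => tT Mach (Tot A) k) s))
    rw [rd2_liftL]
    match s with
    | [] => rfl
    | false :: u =>
      rw [List.length_cons] at hs
      show Tot A u = newB (Tot A0) n K w u
      exact Tot_new hK hA hb (by omega)
    | true :: r =>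
      rw [List.length_cons] at hs
      show (decide (r = List.replicate r.length true) && tT Mach (Tot A) r.length) =
        (decide (r = List.replicate r.length true) &&
          if h : r.length < N then tT Mach (Tot A) r.length else false)
      rw [dif_pos (by omega)]
  | true :: s =>
    rw [List.length_cons] at hs
    show LB (Tot A) s = rd2 (hid1 w) (hbit w) (liftR (clL (Tot A0) n K s))
    rw [rd2_liftR]
    unfold clL
    by_cases h : ∃ p, s = posS n K p
    · rw [dif_pos h]
      show LB (Tot A) s = hbit w h.choose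
      rw [← LB_pos hK hA hb h.choose, ← h.choose_spec]
    · rw [dif_neg h]
      exact LB_other hK hA hb (by omega) fun p hp => h ⟨p, hp⟩

end

/-- `M` with the bounds `p`, `r` is a self-reduction in the weakest sense -/
def WSR (B L : Str → Bool) (M : OProc) (p r : Polynomial ℕ) : Prop :=
  ∃ R : Str → Str → Prop, WellFounded R ∧ ∃ adv : ℕ → Str, (∀ n, (adv n).length ≤ r.eval n) ∧
    ∀ x, ∃ k ≤ p.eval x.length, HaltsO (join B L) M (pairStr (x, adv x.length)) k (L x) ∧
      ∀ j < k, ∀ y, Asks (join B L) M (pairStr (x, adv x.length)) j (true :: y) → R y x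

/-- all bits as a string -/
def outW (n K : ℕ) (μ : Fin K → Fin n → Option Bool) (i : Fin K) : Fin (2 ^ n) :=
  ⟨val (List.ofFn fun j => (μ i j).getD false) % 2 ^ n, Nat.mod_lt _ (by positivity)⟩

theorem outW_hbit {n K : ℕ} (w : Fin K → Fin (2 ^ n)) :
    outW n K (fun i j => some (hbit w (i, j))) = w := by
  funext i
  have h1 : (List.ofFn fun j : Fin n => (some (hbit w (i, j))).getD false) = bstr n (w i) := by
    apply List.ext_getElem
    · rw [List.length_ofFn, bstr_length]
    · intro j h1 h2
      simp only [List.getElem_ofFn, Option.getD_some, hbit]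
      rw [List.getD_eq_getElem _ _ h2]
  unfold outW
  ext
  show val _ % 2 ^ n = (w i : ℕ)
  rw [h1, val_bstr (w i).2, Nat.mod_eq_of_lt (w i).2]

/-- one stage -/
theorem stageS (Mach : ℕ → OProc) {M : OProc} (hM : PT M) (p r : Polynomial ℕ) (A0 : Str → Bool)
    (b : ℕ) (hA0 : ∀ w, b ≤ w.length → A0 w = false) :
    ∃ (A1 : Str → Bool) (b1 : ℕ), b ≤ b1 ∧ (∀ w, w.length < b → A1 w = A0 w) ∧
      (∀ w, b1 ≤ w.length → A1 w = false) ∧
      ∀ A : Str → Bool, (∀ w, w.length < b1 → A w = A1 w) →
        ¬ WSR (orB Mach (Tot A)) (LB (Tot A)) M p r := by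
  classical
  obtain ⟨s, hs⟩ := exists_act_bound hM
  -- the parameters as polynomials in `n`
  let X3 : Polynomial ℕ := 3 * Polynomial.X + 1
  let fP : Polynomial ℕ := p.comp X3
  let rP : Polynomial ℕ := r.comp X3
  let NP : Polynomial ℕ := s.comp (2 * X3 + 1 + rP + fP)
  let KP : Polynomial ℕ := 2 * (rP * Polynomial.X) + NP + fP + 1
  let dP : Polynomial ℕ := (KP * Polynomial.X) * (KP * (Polynomial.X * fP))
  obtain ⟨n, hn, hn2⟩ := poly_lt_two_pow (2 * (1 + dP) + KP) b
  set f := fP.eval n with hf
  set r' := rP.eval n with hr'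
  set N := NP.eval n with hN
  set K := KP.eval n with hK
  have hfe : f = p.eval (3 * n + 1) := by
    simp only [hf, fP, X3, Polynomial.eval_comp, Polynomial.eval_add, Polynomial.eval_mul,
      Polynomial.eval_X, Polynomial.eval_ofNat, Polynomial.eval_one]
  have hre : r' = r.eval (3 * n + 1) := by
    simp only [hr', rP, X3, Polynomial.eval_comp, Polynomial.eval_add, Polynomial.eval_mul,
      Polynomial.eval_X, Polynomial.eval_ofNat, Polynomial.eval_one]
  have hNe : N = s.eval (2 * (3 * n + 1) + 1 + r' + f) := by
    simp only [hN, NP, X3, Polynomial.eval_comp, Polynomial.eval_add, Polynomial.eval_mul,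
      Polynomial.eval_X, Polynomial.eval_ofNat, Polynomial.eval_one, hf, hr']
  have hKe : K = 2 * (r' * n) + N + f + 1 := by
    simp only [hK, KP, Polynomial.eval_add, Polynomial.eval_mul, Polynomial.eval_ofNat,
      Polynomial.eval_one, Polynomial.eval_X, hN, hr', hf]
  have hn3 : 2 * (1 + K * n * (K * (n * f))) + K < 2 ^ n := by
    simp only [Polynomial.eval_add, Polynomial.eval_mul, Polynomial.eval_ofNat,
      Polynomial.eval_one, Polynomial.eval_X, dP] at hn2
    exact hn2
  have hKn : K ≤ 2 ^ n := by omega
  -- the family of advices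
  let adv : Fin (r' + 1) × (Fin r' → Bool) → Str := fun a => (List.ofFn a.2).take a.1
  let inp : (Fin n → Fin (r' + 1) × (Fin r' → Bool)) → Fin K → Fin n → Str := fun a i j =>
    pairStr (posS n K (i, j), adv (a j))
  let D : (Fin n → Fin (r' + 1) × (Fin r' → Bool)) × (Fin N → Bool) →
      DT (Fin K × Fin (2 ^ n)) (Fin K → Fin (2 ^ n)) := fun a =>
    (DT.iterG (stepT (cls (Tot A0) n K N a.2) M (inp a.1) f) (K * n) (fun _ _ => none)).bind
      fun μ => .ret (outW n K μ)
  have hD : ∀ a, (D a).depth ≤ K * n * (K * (n * f)) := fun a =>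
    (DT.depth_bind _ _ (m := 0) fun μ => le_rfl).trans
      (DT.depth_iterG (fun μ => stepT_depth _ _ _ _ _) _ _)
  have hne : Nonempty (Fin (2 ^ n)) := ⟨⟨0, by positivity⟩⟩
  have hcard : Fintype.card ((Fin n → Fin (r' + 1) × (Fin r' → Bool)) × (Fin N → Bool)) <
      2 ^ K := by
    rw [Fintype.card_prod, Fintype.card_fun, Fintype.card_prod, Fintype.card_fun,
      Fintype.card_fun, Fintype.card_fin, Fintype.card_fin, Fintype.card_fin, Fintype.card_fin,
      Fintype.card_bool]
    have h1 : r' + 1 ≤ 2 ^ r' := Nat.lt_two_pow_self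
    calc ((r' + 1) * 2 ^ r') ^ n * 2 ^ N ≤ (2 ^ r' * 2 ^ r') ^ n * 2 ^ N :=
          Nat.mul_le_mul_right _ (Nat.pow_le_pow_left (Nat.mul_le_mul_right _ h1) _)
      _ = 2 ^ (2 * (r' * n) + N) := by
        rw [← pow_add, ← pow_mul, ← pow_add]
        congr 1
        ring
      _ < 2 ^ K := Nat.pow_lt_pow_right (by norm_num) (by omega)
  obtain ⟨w, hw⟩ := exists_hidden1 D hD (by
    rw [Fintype.card_fin]
    set d := K * n * (K * (n * f)) with hd
    have h1 : (2 * (1 + d)) ^ K ≤ (2 ^ n) ^ K := Nat.pow_le_pow_left (by omega) _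
    rw [mul_pow] at h1
    exact lt_of_lt_of_le (Nat.mul_lt_mul_of_pos_right hcard (by positivity)) h1)
  refine ⟨newB A0 n K w, 2 * n + N + 1, by omega, fun u hu => ?_, fun u hu => ?_,
    fun A hA => ?_⟩
  · exact newB_of_ne fun h => by omega
  · rw [newB_of_ne fun h => by omega]
    exact hA0 u (by omega)
  · rintro ⟨R, hR, ad, had, hred⟩
    -- the advices as a member of the family
    have hadv : ∀ j : Fin n, ∃ a : Fin (r' + 1) × (Fin r' → Bool), adv a = ad (2 * n + j + 1) := by
      intro j
      have hlen : (ad (2 * n + j + 1)).length ≤ r' := by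
        refine (had _).trans ?_
        rw [hre]
        exact eval_mono r (by have := j.2; omega)
      refine ⟨(⟨(ad (2 * n + j + 1)).length, by omega⟩,
        fun i => (ad (2 * n + j + 1)).getD i false), ?_⟩
      apply List.ext_getElem
      · simp only [adv, List.length_take, List.length_ofFn]
        omega
      · intro i h1 h2
        simp only [adv, List.getElem_take, List.getElem_ofFn]
        rw [List.getD_eq_getElem _ _ h2]
    choose a1 ha1 using hadv
    refine hw (a1, fun k => tT Mach (Tot A) k) ?_
    -- the runs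
    have hinp : ∀ (i : Fin K) (j : Fin n), inp a1 i j =
        pairStr (posS n K (i, j), ad (posS n K (i, j)).length) := by
      intro i j
      simp only [inp, ha1, posS_length]
    have hrun : ∀ (i : Fin K) (j : Fin n), ∃ k ≤ f,
        HaltsO (join (orB Mach (Tot A)) (LB (Tot A))) M (inp a1 i j) k (hbit w (i, j)) ∧
        ∀ l < k, ∀ y, Asks (join (orB Mach (Tot A)) (LB (Tot A))) M (inp a1 i j) l (true :: y) →
          R y (posS n K (i, j)) := by
      intro i j
      obtain ⟨k, hk, h1, h2⟩ := hred (posS n K (i, j))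
      rw [LB_pos hKn hA (by omega), ← hinp] at h1
      rw [← hinp] at h2
      refine ⟨k, hk.trans ?_, h1, h2⟩
      rw [hfe, posS_length]
      exact eval_mono p (by have := j.2; omega)
    choose kk hkk hhalt hask using hrun
    show (DT.bind _ _).eval _ = _
    rw [DT.eval_bind, rounds (C := join (orB Mach (Tot A)) (LB (Tot A))) (v := hbit w) (N := f)
      (kk := kk) (R := fun a b => R (posS n K a) (posS n K b)) ?_ (fun i j => hkk i j)
      (fun i j => hkk i j) hhalt (InvImage.wf _ hR) ?_]
    · exact outW_hbit w
    · intro i j a q ha hq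
      refine cls_right hKn hA (by omega) (by omega) q ?_
      have h4 : q.length + 1 ≤ s.eval ((inp a1 i j).length + a.length) := by
        have := hs (inp a1 i j) a
        rw [hq] at this
        exact this
      have h5 : (inp a1 i j).length + a.length ≤ 2 * (3 * n + 1) + 1 + r' + f := by
        have h7 : (posS n K (i, j)).length = 2 * n + j + 1 := posS_length _
        have h8 : (inp a1 i j).length = 2 * (2 * n + j + 1) + (ad (2 * n + j + 1)).length + 1 := by
          rw [hinp, pairStr_length', h7]
        have h6 : (ad (2 * n + j + 1)).length ≤ r' := by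
          refine (had _).trans ?_
          rw [hre]
          exact eval_mono r (by have := j.2; omega)
        have := j.2
        omega
      have h6 := eval_mono s h5
      simp only at h6
      omega
    · intro i j l hl q hq
      refine hask i j l hl _ ?_
      -- the query is the test string
      unfold Asks
      generalize (M (inp a1 i j, answers (join (orB Mach (Tot A)) (LB (Tot A))) M
        (inp a1 i j) l)).2 = z at hq
      match z with
      | [] => exact absurd hq (by simp [cls])
      | false :: z =>
        exfalso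
        unfold cls at hq
        cases hc : clB2 (Tot A0) n K N (fun k => tT Mach (Tot A) k) z with
        | inl c => simp only [hc, liftL] at hq; exact absurd hq (by simp)
        | inr c => simp only [hc, liftL] at hq; exact absurd hq (by simp)
      | true :: z =>
        have hq2 : liftR (clL (Tot A0) n K z) = (.inr (.inr q) :
          Bool ⊕ ((Fin K × Fin (2 ^ n)) ⊕ (Fin K × Fin n))) := hq
        unfold clL at hq2
        by_cases h : ∃ p, z = posS n K p
        · rw [dif_pos h] at hq2
          have h8 : h.choose = q := by simpa [liftR] using hq2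
          rw [← h8, ← h.choose_spec]
        · rw [dif_neg h] at hq2
          exact absurd hq2 (by simp [liftR])

end ORTwo
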