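import Pool.Agent.Work.MP_a17a63_lc.SMain

/-!
# Tally languages in NP relative to the oracle
-/

namespace ORTwo

open ORDist PTime

/-- relative to an oracle for which `O_2^p = P`, every tally language in NP is in P -/
theorem tally_sub_p {B : Str → Bool}
    (hO2 : ∀ (m : Polynomial ℕ) (L : Set Str), InO2O B (fun n => m.eval n) L → InPO B L)
    {L : Set Str} (hT : ∀ x ∈ L, x = List.replicate x.length true) (hL : InNPO B L) :
    InPO B L := by
  obtain ⟨V, p, ⟨M, hM, p2, hp2⟩, hV⟩ := hL
  let isT : Str → Bool := fun x => decide (x = List.replicate x.length true)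
  let V' : Str × Str × Str → Bool := fun z => (isT z.1 &&
    decide ((unpairS z.2.1).1.length ≤ p.eval z.1.length)) && V (z.1, (unpairS z.2.1).1)
  let M' : OProc := fun z =>
    bif isT (unpairS z.1).1 && decide ((unpairS (unpairS (unpairS z.1).2).1).1.length ≤
      p.eval (unpairS z.1).1.length) then
      M (pairStr ((unpairS z.1).1, (unpairS (unpairS (unpairS z.1).2).1).1), z.2)
    else (false, [false])
  have hptM' : PT M' := by
    have hu : PT (fun z : Str × Str => unpairS z.1) := (PT.unpairS PT.id).comp PT.fst
    have hx := hu.fst'
    have hc := (PT.unpairS (PT.unpairS hu.snd').fst').fst'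
    exact PT.cond ((PT.eq hx (pt_replB hx.length true)).and
      (PT.le hc.length (PT.polyEval p hx.length)))
      ((pt_of_polyTime hM).comp ((pt_pairStr_comp hx hc).pair PT.snd)) (PT.const _)
  refine hO2 (2 * p + 1) L ⟨⟨2 * p + 1, fun n => le_rfl⟩, V', ⟨M', polyTime_of_pt hptM',
    p2.comp (2 * Polynomial.X + p + 1), fun z => ?_⟩, fun n => ?_⟩
  · obtain ⟨x, c, z⟩ := z
    by_cases hcond : (isT x && decide ((unpairS c).1.length ≤ p.eval x.length)) = true
    · have hM'e : ∀ a, M' (tripStr (x, c, z), a) = M (pairStr (x, (unpairS c).1), a) := by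
        intro a
        show (bif isT (unpairS (tripStr (x, c, z))).1 && _ then _ else _) = _
        unfold tripStr
        simp only [unpairS_pairStr]
        rw [hcond, cond_true]
      have e : ∀ j, answers B M' (tripStr (x, c, z)) j =
          answers B M (pairStr (x, (unpairS c).1)) j := by
        intro j
        induction j with
        | zero => rfl
        | succ j ih => rw [answers, answers, ih, hM'e]
      obtain ⟨k, hk, h1, h2⟩ := hp2 (x, (unpairS c).1)
      refine ⟨k, hk.trans ?_, fun j hj => ?_, ?_⟩
      · rw [Polynomial.eval_comp]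
        refine eval_mono p2 ?_
        simp only [Polynomial.eval_add, Polynomial.eval_mul, Polynomial.eval_X,
          Polynomial.eval_ofNat, Polynomial.eval_one]
        have h3 : (unpairS c).1.length ≤ p.eval x.length := by
          rw [Bool.and_eq_true] at hcond
          exact of_decide_eq_true hcond.2
        have h4 : x.length ≤ (tripStr (x, c, z)).length := by
          rw [tripStr_length]; omega
        have h5 := eval_mono p h4
        simp only at h5
        rw [pairStr_length']
        omega
      · rw [e, hM'e]
        exact h1 j hj
      · rw [e, hM'e]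
        refine h2.trans ?_
        show (false, [V (x, (unpairS c).1)]) = (false, [(isT x &&
          decide ((unpairS c).1.length ≤ p.eval x.length)) && V (x, (unpairS c).1)])
        rw [hcond, Bool.true_and]
    · rw [Bool.not_eq_true] at hcond
      refine ⟨0, Nat.zero_le _, fun j hj => absurd hj (Nat.not_lt_zero _), ?_⟩
      show (bif isT (unpairS (tripStr (x, c, z))).1 && _ then _ else _) = (false, [(isT x &&
          decide ((unpairS c).1.length ≤ p.eval x.length)) && V (x, (unpairS c).1)])
      unfold tripStr
      simp only [unpairS_pairStr]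
      rw [hcond, cond_false, Bool.false_and]
  · have hno : ∀ x : Str, x ∉ L → ∀ c z : Str, V' (x, c, z) = false := by
      intro x hx c z
      rw [← Bool.not_eq_true]
      intro h
      simp only [V', Bool.and_eq_true, decide_eq_true_eq] at h
      exact hx ((hV x).2 ⟨_, h.1.2, h.2⟩)
    have hm : (fun n => (2 * p + 1).eval n) n = 2 * p.eval n + 1 := by
      simp only [Polynomial.eval_add, Polynomial.eval_mul, Polynomial.eval_ofNat,
        Polynomial.eval_one]
    rw [hm]
    by_cases hn : List.replicate n true ∈ L
    · obtain ⟨y, hy, hVy⟩ := (hV _).1 hn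
      rw [List.length_replicate] at hy
      have hlen : (pairStr (y, List.replicate (2 * p.eval n - 2 * y.length) false)).length =
          2 * p.eval n + 1 := by
        rw [pairStr_length', List.length_replicate]
        omega
      refine ⟨_, List.replicate (2 * p.eval n + 1) false, hlen, List.length_replicate,
        fun x hx => ⟨fun hxL z _ => ?_, fun hxL c _ => hno x hxL c _⟩⟩
      have hxe := hT x hxL
      rw [hx] at hxe
      have h1 : isT x = true := by
        simp only [isT, decide_eq_true_eq]
        rw [hx]
        exact hxe
      simp only [V', unpairS_pairStr, h1, Bool.true_and, Bool.and_eq_true, decide_eq_true_eq]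
      exact ⟨by rw [hx]; exact hy, by rw [hxe]; exact hVy⟩
    · refine ⟨List.replicate (2 * p.eval n + 1) false, List.replicate (2 * p.eval n + 1) false,
        List.length_replicate, List.length_replicate, fun x hx => ⟨fun hxL => ?_,
          fun hxL c _ => hno x hxL c _⟩⟩
      have hxe := hT x hxL
      rw [hx] at hxe
      rw [hxe] at hxL
      exact absurd hxL hn

/-- **Self-1-helpers and self-reducibility relative to an oracle with `E = NE`.** -/
theorem exists_selfHelper : ∃ B : Str → Bool,
    (∀ L : Set Str, (∀ x ∈ L, x = List.replicate x.length true) → InNPO B L → InPO B L) ∧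
    ∃ L : Str → Bool, InUPO B {x | L x = true} ∧ InUPO B {x | L x = true}ᶜ ∧
      SelfOneHelper B L ∧ ¬ DisjSelfRed B L ∧ ¬ WeakSelfRed B L := by
  obtain ⟨B, h1, L, h2, h3, h4, h5⟩ := exists_main
  exact ⟨B, fun L hT hL => tally_sub_p h1 hT hL, L, h2, h3, h4,
    fun h => h5 (weak_of_disj h), h5⟩

end ORTwo
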